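import Pool.Agent.H789.HF.Base
import Pool.Agent.X42.FewCuts

/-!
# `1/2`-flow-pairs: graphs with few disjoint odd cuts (MP_e59a69_co)

Let `G` be a bridgeless multigraph which does not contain seventeen pairwise disjoint vertex sets
whose numbers of boundary edges are 3, 5, 7 or 9.  Then `G` has a `1/2`-flow-pair, and at every vertex
with exactly three edges (loops not counted) every admissible choice of the values extends to a
`1/2`-flow-pair of `G`.

Proof.  By the files `X42` of the library every bridgeless graph of this kind has a nowhere-zero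
4-flow or a quotient which is a Petersen graph; the condition passes to the graphs obtained by
identification of vertices.  In the first case Hoffman's theorem gives a pair with prescribed values
(library `TH499/NF`).  In the second case the ten smaller graphs are treated by induction, and their
pairs are glued along a pair of the Petersen graph with prescribed values at a vertex (library
`R129/Hfp`).
-/

set_option autoImplicit false

namespace Pool.Agent.Results.MP_e59a69_co.FewSmallCuts

open Finset Pool.Agent.H160R2.HF

/-- The number of the edges of `G` with exactly one end in `X`. -/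
noncomputable def boundary {V E : Type} (G : OrGraph V E) (X : Set V) : ℕ :=
  {e | ¬ (G.t e ∈ X ↔ G.h e ∈ X)}.ncard

/-- One of the following three conditions holds.  (1) For all pairwise disjoint vertex sets
`X 0, ..., X (m - 1)`, where `18 ≤ m`, with odd numbers of boundary edges, the sum of these numbers is
larger than `4 m - 6`.  (2) There are no seventeen pairwise disjoint vertex sets whose numbers of
boundary edges are odd and at most nine.  (3) For some `d ≥ 10` every vertex has at least `d`
different neighbours, and the number of the vertices is less than `17 (d + 1)`. -/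
def FewSmall {V E : Type} (G : OrGraph V E) : Prop :=
  (∀ (m : ℕ) (X : Fin m → Set V), 18 ≤ m → (∀ i j, i ≠ j → Disjoint (X i) (X j)) →
    (∀ i, Odd (boundary G (X i))) → 4 * m < ∑ i, boundary G (X i) + 6) ∨
  (¬ ∃ X : Fin 17 → Set V, (∀ i j, i ≠ j → Disjoint (X i) (X j)) ∧
    ∀ i, Odd (boundary G (X i)) ∧ boundary G (X i) ≤ 9) ∨
  ∃ d, 10 ≤ d ∧ Nat.card V < 17 * (d + 1) ∧
    ∀ v, d ≤ {w | w ≠ v ∧ ∃ e, (G.t e = v ∧ G.h e = w) ∨ (G.t e = w ∧ G.h e = v)}.ncard

/-- `α e, β e` are admissible values of a `1/2`-flow-pair at the edges `e` of `w` (without loops):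
the two sums of the outgoing values are zero, `|α e| ≤ 1`, `|β e| ≤ 3`, and `|β e| ≥ 2` if
`α e = 0`. -/
def Admissible {V E : Type} [Fintype V] [Fintype E] [DecidableEq V] [DecidableEq E]
    (G : OrGraph V E) (w : V) (α β : E → ℤ) : Prop :=
  ∑ e ∈ G.cut {w}, (if G.t e = w then α e else - α e) = 0 ∧
  ∑ e ∈ G.cut {w}, (if G.t e = w then β e else - β e) = 0 ∧
  ∀ e ∈ G.cut {w}, |α e| ≤ 1 ∧ |β e| ≤ 3 ∧ (α e = 0 → 2 ≤ |β e|)

/-- Let `G` be a bridgeless multigraph which satisfies one of the three conditions of `FewSmall`, for
example without seventeen pairwise disjoint vertex sets with 3, 5, 7 or 9 boundary edges.  Then `G`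
has a `1/2`-flow-pair, and all admissible values at a vertex with three edges extend. -/
theorem result (V E : Type) [Fintype V] [DecidableEq V] [Fintype E] [DecidableEq E]
    (G : OrGraph V E) (hB : G.Bridgeless) (hs : FewSmall G) :
    (∃ φ₂ φ₄ : E → ℤ, G.IsHalfFlowPair φ₂ φ₄) ∧
      ∀ w, (G.cut {w}).card = 3 → ∀ α β : E → ℤ, Admissible G w α β →
        ∃ φ₂ φ₄ : E → ℤ, G.IsHalfFlowPair φ₂ φ₄ ∧ ∀ e ∈ G.cut {w}, φ₂ e = α e ∧ φ₄ e = β e := by
  have hs' : X42.FewCuts.FewSmallCuts G.t G.h := hs
  have hbad := X42.FewCuts.not_bad (R129.Hfp.n1_of (G.cut_card_ne_one hB)) hs'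
  obtain ⟨h1, h2⟩ := H789.HF.pair_of G hB fun π h1 => X42.FlowH.mainB _ _ univ h1 fun h2 =>
      hbad (X42.FlowH.quot_bad (f := π) (Subset.refl _) (fun e he he' => absurd he he') h2)
  exact ⟨h1, fun w hw α β ⟨a, b, c⟩ => h2 w hw α β a b c⟩

end Pool.Agent.Results.MP_e59a69_co.FewSmallCuts
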