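import Pool.Agent.H789.HF.Base
import Pool.Agent.X186.IC.Defs

/-!
# `1/2`-flow-pairs: graphs with few independent odd cuts (MP_e59a69_co)

Let `G` be a bridgeless multigraph, `U` a set of vertices, and `a ≥ 3`, `c ≥ 1` with
`4 a + |U| + ⌊6 / c⌋ ≤ 21`, such that `G` has no `a + 1` pairwise disjoint and pairwise non-adjacent
vertex sets disjoint from `U`, each with an odd number, at most `2 c + 1`, of boundary edges.  Then
`G` has a `1/2`-flow-pair, and at every vertex with exactly three edges (loops not counted) every
admissible choice of the values extends to a `1/2`-flow-pair of `G`.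

Proof.  By the files `X186` of the library every bridgeless graph of this kind has a nowhere-zero
4-flow or a quotient which is a Petersen graph; the condition passes to the graphs obtained by
identification of vertices.  In the first case Hoffman's theorem gives a pair with prescribed values
(library `TH499/NF`).  In the second case the ten smaller graphs are treated by induction, and their
pairs are glued along a pair of the Petersen graph with prescribed values at a vertex (library
`R129/Hfp`).
-/

set_option autoImplicit false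

namespace Pool.Agent.Results.MP_e59a69_co.IndependentSmallCuts

open Finset Pool.Agent.H160R2.HF

/-- The number of the edges of `G` with exactly one end in `X`. -/
noncomputable def boundary {V E : Type} (G : OrGraph V E) (X : Set V) : ℕ :=
  {e | ¬ (G.t e ∈ X ↔ G.h e ∈ X)}.ncard

/-- Some edge has one end in `X` and the other in `Y`. -/
def Adjacent {V E : Type} (G : OrGraph V E) (X Y : Set V) : Prop :=
  ∃ e, (G.t e ∈ X ∧ G.h e ∈ Y) ∨ (G.t e ∈ Y ∧ G.h e ∈ X)

/-- There are a set `U` of vertices and numbers `a ≥ 3` and `c ≥ 1` with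
`4 a + |U| + ⌊6 / c⌋ ≤ 21` such that there are no `a + 1` pairwise disjoint and pairwise non-adjacent
vertex sets, all of them disjoint from `U`, each with an odd number, at most `2 c + 1`, of boundary
edges. -/
def Independent {V E : Type} (G : OrGraph V E) : Prop :=
  ∃ (U : Set V) (a c : ℕ), 3 ≤ a ∧ 1 ≤ c ∧ 4 * a + U.ncard + 6 / c ≤ 21 ∧
    ¬ ∃ X : Fin (a + 1) → Set V,
      (∀ i j, i ≠ j → Disjoint (X i) (X j) ∧ ¬ Adjacent G (X i) (X j)) ∧
      (∀ i, Disjoint (X i) U) ∧
      ∀ i, Odd (boundary G (X i)) ∧ boundary G (X i) ≤ 2 * c + 1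

/-- `α e, β e` are admissible values of a `1/2`-flow-pair at the edges `e` of `w` (without loops):
the two sums of the outgoing values are zero, `|α e| ≤ 1`, `|β e| ≤ 3`, and `|β e| ≥ 2` if
`α e = 0`. -/
def Admissible {V E : Type} [Fintype V] [Fintype E] [DecidableEq V] [DecidableEq E]
    (G : OrGraph V E) (w : V) (α β : E → ℤ) : Prop :=
  ∑ e ∈ G.cut {w}, (if G.t e = w then α e else - α e) = 0 ∧
  ∑ e ∈ G.cut {w}, (if G.t e = w then β e else - β e) = 0 ∧
  ∀ e ∈ G.cut {w}, |α e| ≤ 1 ∧ |β e| ≤ 3 ∧ (α e = 0 → 2 ≤ |β e|)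

/-- Let `G` be a bridgeless multigraph which satisfies the condition `Independent`.  Then `G` has a
`1/2`-flow-pair, and all admissible values at a vertex with three edges extend. -/
theorem result (V E : Type) [Fintype V] [DecidableEq V] [Fintype E] [DecidableEq E]
    (G : OrGraph V E) (hB : G.Bridgeless) (hs : Independent G) :
    (∃ φ₂ φ₄ : E → ℤ, G.IsHalfFlowPair φ₂ φ₄) ∧
      ∀ w, (G.cut {w}).card = 3 → ∀ α β : E → ℤ, Admissible G w α β →
        ∃ φ₂ φ₄ : E → ℤ, G.IsHalfFlowPair φ₂ φ₄ ∧ ∀ e ∈ G.cut {w}, φ₂ e = α e ∧ φ₄ e = β e := by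
  have hs' : X186.IC.IndependentSmallCuts G.t G.h := hs
  obtain ⟨U, a, c, ha, hc, hU, h2⟩ := X186.IC.of_indep hs'
  obtain ⟨h1, h2⟩ := H789.HF.pair_of G hB fun π h1 => by
    refine X186.IC.mainI _ _ univ h1 (U.image π) a c ha hc ?_ fun h3 => h2 ?_
    · have := card_image_le (s := U) (f := π)
      omega
    · exact X186.IC.quot_fam (f := π) (Subset.refl _) (fun e he he' => absurd he he') h3
  exact ⟨h1, fun w hw α β ⟨a, b, c⟩ => h2 w hw α β a b c⟩

end Pool.Agent.Results.MP_e59a69_co.IndependentSmallCuts
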