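import Pool.Agent.H789.HF.P8

/-!
# `1/2`-flow-pairs: graphs without an induced path on eight vertices (MP_e59a69_co)

Let `G` be a bridgeless multigraph without an induced path on eight vertices.  Then `G` has a
`1/2`-flow-pair, and at every vertex with exactly three edges (loops not counted) every admissible
choice of the values extends to a `1/2`-flow-pair of `G`.

Proof.  By the theorem of the library (`R140/PK/Main8`) every bridgeless graph of this kind has a
nowhere-zero 4-flow or a quotient which is a Petersen graph; the class is closed under the contraction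
of connected sets, but not under the identification of vertices.  Take a smallest contraction of `G`
for which the statement fails.  It has no nowhere-zero 4-flow (Hoffman's theorem gives pairs with
prescribed values), so it has a Petersen quotient.  For each of the ten classes the three edges which
leave it are the edges which leave a connected set outside of the class; the contraction of this set is
smaller, so the statement holds for it, and it passes to the graph obtained by identification of all
vertices outside of the class.  The ten pairs are glued along a pair of the Petersen graph (library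
`R129/Hfp`).
-/

set_option autoImplicit false

namespace Pool.Agent.Results.MP_e59a69_co.InducedPathEight

open Finset Pool.Agent.H160R2.HF

/-- The vertices `x` and `y` are joined by an edge. -/
def Adjacent {V E : Type} (G : OrGraph V E) (x y : V) : Prop :=
  ∃ e, (G.t e = x ∧ G.h e = y) ∨ (G.t e = y ∧ G.h e = x)

/-- `α e, β e` are admissible values of a `1/2`-flow-pair at the edges `e` of `w` (without loops):
the two sums of the outgoing values are zero, `|α e| ≤ 1`, `|β e| ≤ 3`, and `|β e| ≥ 2` if
`α e = 0`. -/
def Admissible {V E : Type} [Fintype V] [Fintype E] [DecidableEq V] [DecidableEq E]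
    (G : OrGraph V E) (w : V) (α β : E → ℤ) : Prop :=
  ∑ e ∈ G.cut {w}, (if G.t e = w then α e else - α e) = 0 ∧
  ∑ e ∈ G.cut {w}, (if G.t e = w then β e else - β e) = 0 ∧
  ∀ e ∈ G.cut {w}, |α e| ≤ 1 ∧ |β e| ≤ 3 ∧ (α e = 0 → 2 ≤ |β e|)

/-- Let `G` be a bridgeless multigraph without an induced path on eight vertices, that is, without
eight different vertices `p 0, ..., p 7` such that `p i` and `p j` (`i < j`) are adjacent exactly if
`j = i + 1`.  Then `G` has a `1/2`-flow-pair, and all admissible values at a vertex with three edges
extend. -/
theorem result (V E : Type) [Fintype V] [DecidableEq V] [Fintype E] [DecidableEq E]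
    (G : OrGraph V E) (hB : G.Bridgeless)
    (hp : ¬ ∃ p : Fin 8 → V, Function.Injective p ∧
      ∀ i j : Fin 8, i < j → (Adjacent G (p i) (p j) ↔ i.val + 1 = j.val)) :
    (∃ φ₂ φ₄ : E → ℤ, G.IsHalfFlowPair φ₂ φ₄) ∧
      ∀ w, (G.cut {w}).card = 3 → ∀ α β : E → ℤ, Admissible G w α β →
        ∃ φ₂ φ₄ : E → ℤ, G.IsHalfFlowPair φ₂ φ₄ ∧ ∀ e ∈ G.cut {w}, φ₂ e = α e ∧ φ₄ e = β e := by
  obtain ⟨h1, h2⟩ := H789.HF.pr_main G.t G.h (R129.Hfp.n1_of (G.cut_card_ne_one hB)) hp
  exact ⟨h1, fun w hw α β ⟨a, b, c⟩ => h2 w hw α β a b c⟩

end Pool.Agent.Results.MP_e59a69_co.InducedPathEight
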