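import Pool.Agent.H789.HF.Base
import Pool.Agent.R769.MN.Mat

/-!
# `1/2`-flow-pairs: graphs with matching number at most eight (MP_e59a69_co)

Let `G` be a bridgeless multigraph in which every matching has at most eight edges.  Then `G` has a
`1/2`-flow-pair, and at every vertex with exactly three edges (loops not counted) every admissible
choice of the values extends to a `1/2`-flow-pair of `G`.

Proof.  By the files `R769/MN` of the library every bridgeless graph with matching number at most
eight (loops not counted) has a nowhere-zero 4-flow or a quotient which is a Petersen graph; the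
matching number does not increase if vertices are identified.  In the first case Hoffman's theorem
gives a pair with prescribed values (library `TH499/NF`).  In the second case the ten smaller graphs
are treated by induction, and their pairs are glued along a pair of the Petersen graph with
prescribed values at a vertex (library `R129/Hfp`).
-/

set_option autoImplicit false

namespace Pool.Agent.Results.MP_e59a69_co.MatchingNumberEight

open Finset Pool.Agent.H160R2.HF

/-- `M` is a matching: its edges are not loops and no two of them have a common end. -/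
def IsMatching {V E : Type} (G : OrGraph V E) (M : Finset E) : Prop :=
  (∀ e ∈ M, G.t e ≠ G.h e) ∧ ∀ e ∈ M, ∀ e' ∈ M, e ≠ e' →
    G.t e ≠ G.t e' ∧ G.t e ≠ G.h e' ∧ G.h e ≠ G.t e' ∧ G.h e ≠ G.h e'

/-- `α e, β e` are admissible values of a `1/2`-flow-pair at the edges `e` of `w` (without loops):
the two sums of the outgoing values are zero, `|α e| ≤ 1`, `|β e| ≤ 3`, and `|β e| ≥ 2` if
`α e = 0`. -/
def Admissible {V E : Type} [Fintype V] [Fintype E] [DecidableEq V] [DecidableEq E]
    (G : OrGraph V E) (w : V) (α β : E → ℤ) : Prop :=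
  ∑ e ∈ G.cut {w}, (if G.t e = w then α e else - α e) = 0 ∧
  ∑ e ∈ G.cut {w}, (if G.t e = w then β e else - β e) = 0 ∧
  ∀ e ∈ G.cut {w}, |α e| ≤ 1 ∧ |β e| ≤ 3 ∧ (α e = 0 → 2 ≤ |β e|)

/-- Let `G` be a bridgeless multigraph in which every matching has at most eight edges.  Then `G` has
a `1/2`-flow-pair, and all admissible values at a vertex with three edges extend. -/
theorem result (V E : Type) [Fintype V] [DecidableEq V] [Fintype E] [DecidableEq E]
    (G : OrGraph V E) (hB : G.Bridgeless) (h8 : ∀ M : Finset E, IsMatching G M → M.card ≤ 8) :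
    (∃ φ₂ φ₄ : E → ℤ, G.IsHalfFlowPair φ₂ φ₄) ∧
      ∀ w, (G.cut {w}).card = 3 → ∀ α β : E → ℤ, Admissible G w α β →
        ∃ φ₂ φ₄ : E → ℤ, G.IsHalfFlowPair φ₂ φ₄ ∧ ∀ e ∈ G.cut {w}, φ₂ e = α e ∧ φ₄ e = β e := by
  obtain ⟨h1, h2⟩ := H789.HF.pair_of G hB fun π h1 => R769.MN.match8 _ _ univ h1
      fun M _ hM => h8 M (hM.of_map π)
  exact ⟨h1, fun w hw α β ⟨a, b, c⟩ => h2 w hw α β a b c⟩

end Pool.Agent.Results.MP_e59a69_co.MatchingNumberEight
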